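import Pool.Agent.Y922.KB.Stm

/-!
# Project KB, task NZ: the case without zeros (helper87)
-/

set_option autoImplicit false

namespace Pool.Agent.Y87.KB

open Complex Metric Set Pool.Agent.Y922.KB

theorem t_NZ : S_NZ := by
  intro ε f g hε hε2 hf hg hfg hne z hz
  have hop : IsOpen (ball (0 : ℂ) 1 ∩ g ⁻¹' {0}ᶜ) :=
    hg.continuousOn.isOpen_inter_preimage isOpen_ball isOpen_compl_singleton
  have hsub : closedBall (0 : ℂ) (1 - ε) ⊆ ball (0 : ℂ) 1 ∩ g ⁻¹' {0}ᶜ := by
    intro u hu
    rw [mem_closedBall, dist_zero_right] at hu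
    refine ⟨?_, hne u hu⟩
    rw [mem_ball, dist_zero_right]
    linarith
  obtain ⟨δ, hδ, hδs⟩ := (isCompact_closedBall (0 : ℂ) (1 - ε)).exists_cthickening_subset_open
    hop hsub
  rw [cthickening_closedBall hδ.le (by linarith)] at hδs
  have hr0 : 0 < δ + (1 - ε) := by linarith
  have hr1 : δ + (1 - ε) < 1 := by
    have h1 : ((δ + (1 - ε) : ℝ) : ℂ) ∈ closedBall (0 : ℂ) (δ + (1 - ε)) := by
      rw [mem_closedBall, dist_zero_right, Complex.norm_real, Real.norm_of_nonneg hr0.le]
    have h2 := (hδs h1).1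
    rwa [mem_ball, dist_zero_right, Complex.norm_real, Real.norm_of_nonneg hr0.le] at h2
  rw [mem_ball, dist_zero_right] at hz
  rcases le_or_gt ‖z‖ (δ + (1 - ε)) with h | h
  · have hcl : closure (ball (0 : ℂ) (δ + (1 - ε))) = closedBall 0 (δ + (1 - ε)) :=
      closure_ball _ hr0.ne'
    have hd : DiffContOnCl ℂ (fun u => f u / g u) (ball (0 : ℂ) (δ + (1 - ε))) := by
      apply DifferentiableOn.diffContOnCl
      rw [hcl]
      exact (hf.mono fun u hu => (hδs hu).1).div (hg.mono fun u hu => (hδs hu).1)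
        fun u hu => (hδs hu).2
    have h1 : ‖f z / g z‖ ≤ 1 := by
      refine norm_le_of_forall_mem_frontier_norm_le (f := fun u => f u / g u) isBounded_ball hd ?_ ?_
      · intro u hu
        rw [frontier_ball _ hr0.ne', mem_sphere, dist_zero_right] at hu
        rw [norm_div]
        refine div_le_one_of_le₀ (hfg u ⟨?_, ?_⟩) (norm_nonneg _)
        · rw [hu]
          linarith
        · rw [hu]
          exact hr1
      · rw [hcl, mem_closedBall, dist_zero_right]
        exact h
    have h2 : g z ≠ 0 := (hδs (by rw [mem_closedBall, dist_zero_right]; exact h)).2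
    rw [norm_div, div_le_one (norm_pos_iff.2 h2)] at h1
    exact h1
  · exact hfg z ⟨by linarith, hz⟩

end Pool.Agent.Y87.KB
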